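import Pool.Agent.helper51.VF.SpecC

/-!
# Project vf, row DMF: the dimension is the transcendence degree
-/

set_option autoImplicit false
set_option linter.style.haveILetI false

namespace Pool.Agent.VF

open Pool.Agent.PC Pool.Agent.QS MvPolynomial

universe u

theorem DMF_int {R S : Type u} [CommRing R] [CommRing S] [Algebra R S] [Algebra.IsIntegral R S]
    (hinj : Function.Injective (algebraMap R S)) : ringKrullDim R = ringKrullDim S := by
  apply le_antisymm
  · unfold ringKrullDim
    apply iSup_le
    intro l
    obtain ⟨P, _, hP, hPc⟩ := Ideal.exists_ideal_over_prime_of_isIntegral (S := S) l.head.asIdeal ⊥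
      (by
        rw [← RingHom.ker_eq_comap_bot, (RingHom.injective_iff_ker_eq_bot _).1 hinj]
        exact bot_le)
    haveI := hP
    haveI : P.LiesOver l.head.asIdeal := ⟨hPc.symm⟩
    obtain ⟨L, hL, _, _⟩ := Ideal.exists_ltSeries_of_hasGoingUp l P
    rw [← hL]
    exact Order.LTSeries.length_le_krullDim L
  · apply Order.krullDim_le_of_strictMono (PrimeSpectrum.comap (algebraMap R S))
    intro P Q h
    exact Ideal.IsIntegral.comap_lt_comap (R := R) (I := P.asIdeal) (J := Q.asIdeal) h

theorem DMF : DMF_stmt.{u} := by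
  intro k R L _ _ _ _ _ _ _ _ _ _ n x hx
  obtain ⟨s, g, hinj, hint⟩ := exists_integral_inj_algHom_of_fg k R
  letI i1 : Algebra (MvPolynomial (Fin s) k) R := g.toRingHom.toAlgebra
  haveI : IsScalarTower k (MvPolynomial (Fin s) k) R :=
    IsScalarTower.of_algebraMap_eq fun r => (g.commutes r).symm
  letI i2 : Algebra (MvPolynomial (Fin s) k) L := ((algebraMap R L).comp g.toRingHom).toAlgebra
  haveI : IsScalarTower (MvPolynomial (Fin s) k) R L := IsScalarTower.of_algebraMap_eq fun r => rfl
  haveI : IsScalarTower k (MvPolynomial (Fin s) k) L := by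
    refine IsScalarTower.of_algebraMap_eq fun r => ?_
    rw [IsScalarTower.algebraMap_apply k R L, IsScalarTower.algebraMap_apply (MvPolynomial (Fin s) k) R L,
      ← IsScalarTower.algebraMap_apply k (MvPolynomial (Fin s) k) R]
  haveI i3 : Algebra.IsIntegral (MvPolynomial (Fin s) k) R := ⟨hint⟩
  have hinj2 : Function.Injective (algebraMap (MvPolynomial (Fin s) k) R) := hinj
  have hinj3 : Function.Injective (algebraMap (MvPolynomial (Fin s) k) L) := by
    rw [IsScalarTower.algebraMap_eq (MvPolynomial (Fin s) k) R L, RingHom.coe_comp]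
    exact (IsFractionRing.injective R L).comp hinj2
  have hdim : ringKrullDim (MvPolynomial (Fin s) k) = (s : WithBot ℕ∞) := by
    rw [MvPolynomial.ringKrullDim_of_isNoetherianRing]
    simp
  haveI : FaithfulSMul (MvPolynomial (Fin s) k) L := (faithfulSMul_iff_algebraMap_injective _ _).2 hinj3
  haveI : Algebra.IsAlgebraic (MvPolynomial (Fin s) k) R := inferInstance
  haveI : Algebra.IsAlgebraic (MvPolynomial (Fin s) k) L :=
    (IsFractionRing.isAlgebraic_iff' (MvPolynomial (Fin s) k) R L).1 inferInstance
  have hb := (IsTranscendenceBasis.mvPolynomial (Fin s) k).algebraMap_comp (A := L)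
  have h1 := hb.cardinalMk_eq hx
  have h2 : s = n := by simpa using h1
  rw [← DMF_int hinj2, hdim, h2]

end Pool.Agent.VF
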