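import Pool.Agent.helper51.VF.SpecA
import Pool.Agent.helper51.VF.Lib

/-!
# Project vf, row VCL: monomial valuations and approximation in the local ring
-/

set_option autoImplicit false

namespace Pool.Agent.VF

open Pool.Agent.PC Pool.Agent.QS

universe u

/-- Coefficients of a product vanish on a lower set if those of one factor do. -/
theorem VCL_mul {σ k : Type*} [Field k] (u f : MvPowerSeries σ k) (D : Set (σ →₀ ℕ))
    (hD : ∀ β ∈ D, ∀ γ, γ ≤ β → γ ∈ D) (hf : ∀ β ∈ D, MvPowerSeries.coeff β f = 0) :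
    ∀ β ∈ D, MvPowerSeries.coeff β (u * f) = 0 := by
  classical
  intro β hβ
  rw [MvPowerSeries.coeff_mul]
  apply Finset.sum_eq_zero
  intro q hq
  rw [Finset.HasAntidiagonal.mem_antidiagonal] at hq
  rw [hf q.2 (hD β hβ q.2 (by rw [← hq]; exact le_add_self)), mul_zero]

/-- A unit can be cancelled. -/
theorem VCL_cancel {σ k : Type*} [Field k] (u f : MvPowerSeries σ k)
    (hu : MvPowerSeries.coeff 0 u ≠ 0) (D : Set (σ →₀ ℕ))
    (hD : ∀ β ∈ D, ∀ γ, γ ≤ β → γ ∈ D) (hf : ∀ β ∈ D, MvPowerSeries.coeff β (u * f) = 0) :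
    ∀ N : ℕ, ∀ β ∈ D, β.degree < N → MvPowerSeries.coeff β f = 0 := by
  classical
  intro N
  induction N with
  | zero => intro β _ h; omega
  | succ N ih =>
    intro β hβ hN
    have h1 := hf β hβ
    rw [MvPowerSeries.coeff_mul, Finset.sum_eq_single (0, β)] at h1
    · exact (mul_eq_zero.1 h1).resolve_left hu
    · intro q hq hne
      rw [Finset.HasAntidiagonal.mem_antidiagonal] at hq
      have h2 : q.2 ≤ β := by rw [← hq]; exact le_add_self
      have h3 : q.1.degree + q.2.degree = β.degree := by rw [← hq, map_add]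
      have h4 : q.1.degree ≠ 0 := by
        intro h
        rw [Finsupp.degree_eq_zero_iff] at h
        apply hne
        rw [h, zero_add] at hq
        exact Prod.ext h hq
      rw [ih q.2 (hD β hβ _ h2) (by omega), mul_zero]
    · intro h
      exact absurd (by simp) h

theorem VCL : VCL_stmt.{u} := by
  intro k A K _ _ _ _ _ _ _ _ _ n m _ y φ hT w v hW r x hx hN
  obtain ⟨hv, hW2⟩ := hW
  have hmt : m ≠ ⊤ := Ideal.IsPrime.ne_top inferInstance
  have hs0 : ∀ s : A, s ∉ m → MvPowerSeries.coeff 0 (φ s) ≠ 0 := by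
    intro s hs h0
    apply hs
    have h1 := (hT.2 1 s).2 (by
      intro α hα
      have h2 : α = 0 := by
        rw [← Finsupp.degree_eq_zero_iff]
        omega
      rw [h2]
      exact h0)
    rwa [pow_one] at h1
  have hval : ∀ s : A, s ∉ m → v (algebraMap A K s) = 0 := by
    intro s hs
    have hne := LB_ne (K := K) hs
    have h1 : ¬ Ge v ((1 : ℕ) : ℤ) (algebraMap A K s) := by
      rw [hW2]
      intro h
      exact hs0 s hs (h 0 (by simp))
    have h2 : Ge v ((0 : ℕ) : ℤ) (algebraMap A K s) := (hW2 s 0).2 (by intro α hα; omega)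
    unfold Ge at h1 h2
    push Not at h1
    rcases h2 with h2 | h2
    · exact absurd h2 hne
    · have h3 := h1.2
      push_cast at h2 h3
      omega
  have hGe : ∀ (t : ℤ) (b s : A), s ∉ m →
      (Ge v t (algebraMap A K b / algebraMap A K s) ↔ Ge v t (algebraMap A K b)) := by
    intro t b s hs
    have hne := LB_ne (K := K) hs
    by_cases hb : algebraMap A K b = 0
    · rw [hb, zero_div]
    · have h1 : v (algebraMap A K b) =
          v (algebraMap A K b / algebraMap A K s) + v (algebraMap A K s) := by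
        rw [← hv.mul _ _ (div_ne_zero hb hne) hne, div_mul_cancel₀ _ hne]
      rw [hval s hs, add_zero] at h1
      unfold Ge
      rw [← h1, div_eq_zero_iff]
      constructor
      · rintro ((h2 | h2) | h2)
        · exact Or.inl h2
        · exact absurd h2 hne
        · exact Or.inr h2
      · rintro (h2 | h2)
        · exact Or.inl (Or.inl h2)
        · exact Or.inr h2
  obtain ⟨b, s, hs, rfl⟩ := hx
  rw [hGe _ _ _ hs]
  rcases le_or_gt r 0 with hr | hr
  · have h1 : Ge v ((0 : ℕ) : ℤ) (algebraMap A K b) := (hW2 b 0).2 (by intro α hα; omega)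
    rcases h1 with h1 | h1
    · exact Or.inl h1
    · right
      push_cast at h1
      omega
  · lift r to ℕ using hr.le
    rw [hW2]
    intro α hα
    obtain ⟨x1, x2, h12, h1, h1', h2⟩ := hN (α.degree + 1)
    obtain ⟨b', s1, hs1, rfl⟩ := h1
    obtain ⟨c, s2, hs2, hc, rfl⟩ := h2
    rw [hGe _ _ _ hs1] at h1'
    have e0 := LB_ne (K := K) hs
    have e1 := LB_ne (K := K) hs1
    have e2 := LB_ne (K := K) hs2
    have hmp : m.IsPrime := inferInstance
    have h3 : s1 * s2 * b = s * s2 * b' + s * s1 * c := by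
      apply IsFractionRing.injective A K
      simp only [map_add, map_mul]
      have h4 : algebraMap A K b = algebraMap A K s *
          (algebraMap A K b' / algebraMap A K s1 + algebraMap A K c / algebraMap A K s2) := by
        rw [← h12]
        field_simp
      rw [h4]
      field_simp
    let D : Set (Fin n →₀ ℕ) := {β | Finsupp.weight w β < r ∧ β.degree < α.degree + 1}
    have hD : ∀ β ∈ D, ∀ γ, γ ≤ β → γ ∈ D := by
      intro β hβ γ hγ
      obtain ⟨δ, rfl⟩ := exists_add_of_le hγ
      obtain ⟨g1, g2⟩ := hβ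
      rw [map_add] at g1 g2
      exact ⟨by omega, by omega⟩
    have h5 := congrArg φ h3
    rw [map_add, map_mul, map_mul _ (s * s2), map_mul _ (s * s1)] at h5
    have h6 := VCL_mul (φ (s * s2)) (φ b') D hD (fun β hβ => (hW2 b' r).1 h1' β hβ.1)
    have h7 := VCL_mul (φ (s * s1)) (φ c) D hD
      (fun β hβ => (hT.2 (α.degree + 1) c).1 hc β hβ.2)
    refine VCL_cancel (φ (s1 * s2)) (φ b) (hs0 _ (hmp.mul_notMem hs1 hs2)) D hD ?_
      (α.degree + 1) α ⟨by exact_mod_cast hα, by omega⟩ (by omega)
    intro β hβ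
    rw [h5, map_add, h6 β hβ, h7 β hβ, add_zero]

end Pool.Agent.VF
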